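import Pool.Agent.W387.S.Fin3
import Pool.Agent.H982R3.Plain
import Pool.Agent.H978R2.Hex.Lower
import Pool.Agent.H978R2.Hex.Conn

/-!
Self-avoiding walks on the honeycomb lattice (brick-wall coordinates, same description as in the
frozen statement): `μ^n ≤ c n ≤ μ^n exp (K (log n)^3)` with `μ = √(2+√2)`.
-/

set_option autoImplicit false

namespace Pool.Agent.Results.MP_b440f6_pr.HoneycombLogThree

/-- Adjacency in the honeycomb lattice (brick-wall model), as in the frozen statement. -/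
def Nbr (p q : ℤ × ℤ) : Prop :=
  (p.2 = q.2 ∧ (p.1 - q.1 = 1 ∨ q.1 - p.1 = 1)) ∨
    (p.1 = q.1 ∧ ((q.2 = p.2 + 1 ∧ Even (p.1 + p.2)) ∨ (p.2 = q.2 + 1 ∧ Even (q.1 + q.2))))

/-- The set of `n`-step self-avoiding walks from the origin. -/
def walks (n : ℕ) : Set (Fin (n + 1) → ℤ × ℤ) :=
  {ω | ω 0 = (0, 0) ∧ Function.Injective ω ∧ ∀ i : Fin n, Nbr (ω i.castSucc) (ω i.succ)}

/-- The number of `n`-step self-avoiding walks from the origin. -/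
noncomputable def c (n : ℕ) : ℕ := (walks n).ncard

/-- the adjacency relation of the library -/
def Adj0 (p q : ℤ × ℤ) : Prop :=
  q - p = (1, 0) ∨ q - p = (-1, 0) ∨
    (q - p = (0, 1) ∧ Even (p.1 + p.2)) ∨ (q - p = (0, -1) ∧ Even (q.1 + q.2))

theorem nbr_iff (p q : ℤ × ℤ) : Nbr p q ↔ Adj0 p q := by
  obtain ⟨a, b⟩ := p
  obtain ⟨x, y⟩ := q
  unfold Nbr Adj0
  simp only [Prod.mk_sub_mk, Prod.mk.injEq]
  constructor
  · rintro (⟨h1, h2 | h2⟩ | ⟨h1, ⟨h2, h3⟩ | ⟨h2, h3⟩⟩)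
    · right; left; omega
    · left; omega
    · right; right; left; exact ⟨by omega, h3⟩
    · right; right; right; exact ⟨by omega, h3⟩
  · rintro (h | h | ⟨h, h'⟩ | ⟨h, h'⟩)
    · left; omega
    · left; omega
    · right; exact ⟨by omega, Or.inl ⟨by omega, h'⟩⟩
    · right; exact ⟨by omega, Or.inr ⟨by omega, h'⟩⟩

theorem walks_eq (n : ℕ) : walks n = {f : Fin (n + 1) → ℤ × ℤ | f 0 = 0 ∧ Function.Injective f ∧
    ∀ i : Fin n, Adj0 (f i.castSucc) (f i.succ)} := by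
  ext f
  unfold walks
  simp only [Set.mem_ofPred_eq]
  constructor
  · rintro ⟨h1, h2, h3⟩
    exact ⟨h1, h2, fun i => (nbr_iff _ _).1 (h3 i)⟩
  · rintro ⟨h1, h2, h3⟩
    exact ⟨h1, h2, fun i => (nbr_iff _ _).2 (h3 i)⟩

/-- the bounds for a graph which has coordinates in one of the word models -/
theorem bounds [L : H982.Lat] {Adj : ℤ × ℤ → ℤ × ℤ → Prop} {φ : ℤ × ℤ → ℤ × ℤ}
    {R : ℕ → ℤ × ℤ → Prop} (H : H982.Coord Adj φ R) (a : ℕ → ℕ)
    (ha : ∀ n : ℕ, a n = Set.ncard {f : Fin (n + 1) → ℤ × ℤ |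
            f 0 = 0 ∧ Function.Injective f ∧
            ∀ i : Fin n, Adj (f i.castSucc) (f i.succ)}) (μ : ℝ)
    (hμ : μ = (⨅ n : {n : ℕ // 1 ≤ n}, ((a n.1 : ℝ) ^ ((1 : ℝ) / (n.1 : ℝ))))) :
    ∃ K : ℝ, ∀ n : ℕ, 2 ≤ n →
      μ ^ n ≤ (a n : ℝ) ∧ (a n : ℝ) ≤ μ ^ n * Real.exp (K * (Real.log n) ^ 3) := by
  have ha' : ∀ n, a n = (H982.walks Adj n).ncard := ha
  have hμ' : μ = H982.mu := by
    rw [hμ, ← H982.mu_eq_iInf H]
    congr 1
    funext n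
    rw [ha']
  obtain ⟨K, -, hK⟩ := Pool.Agent.W387.S.cr'_upper3
  refine ⟨K, fun n hn => ?_⟩
  rw [hμ', ha', H982.ncard_walks H]
  exact ⟨H982.mu_pow_le n, hK n hn⟩

/-- the connective constant equals `√(2+√2)` -/
theorem mu_eq : (⨅ n : {n : ℕ // 1 ≤ n}, ((c n.1 : ℝ) ^ ((1 : ℝ) / (n.1 : ℝ)))) =
    Real.sqrt (2 + Real.sqrt 2) := by
  have hc : ∀ n, c n = Set.ncard (H978R2.Hex.saws n) := by
    intro n
    unfold c
    rw [walks_eq]
    rfl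
  simp only [hc]
  change _ = H978R2.Hex.mu0
  refine le_antisymm H978R2.Hex.connective_le ?_
  have : Nonempty {n : ℕ // 1 ≤ n} := ⟨⟨1, le_refl 1⟩⟩
  refine le_ciInf fun n => ?_
  have h1 : H978R2.Hex.mu0 ^ n.1 ≤ (Set.ncard (H978R2.Hex.saws n.1) : ℝ) := by
    refine le_trans ?_ (H978R2.Hex.lower' n.1)
    have h2 : 0 ≤ Real.sin (Real.pi / 8) * H978R2.Hex.Mass H978R2.Hex.SlitPlane n.1 5 :=
      mul_nonneg H978R2.Hex.sin_pi_div_eight_pos.le (H978R2.Hex.mass_nonneg _ _ _)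
    nlinarith [pow_pos H978R2.Hex.mu0_pos n.1]
  have h3 : (H978R2.Hex.mu0 ^ n.1) ^ ((1 : ℝ) / (n.1 : ℝ)) ≤
      (Set.ncard (H978R2.Hex.saws n.1) : ℝ) ^ ((1 : ℝ) / (n.1 : ℝ)) :=
    Real.rpow_le_rpow (pow_pos H978R2.Hex.mu0_pos _).le h1 (by positivity)
  have hn : n.1 ≠ 0 := by
    have := n.2
    omega
  rwa [one_div, Real.pow_rpow_inv_natCast H978R2.Hex.mu0_pos.le hn, ← one_div] at h3

/-- **Theorem.** On the honeycomb lattice, with `μ = √(2+√2)`, there is `K` such that the number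
`c n` of `n`-step self-avoiding walks satisfies `μ^n ≤ c n ≤ μ^n exp (K (log n)^3)` for all
`n ≥ 2`; that is `0 ≤ log (c n / μ^n) / log n ≤ K (log n)^2`. -/
theorem result : ∃ K : ℝ, ∀ n : ℕ, 2 ≤ n →
    Real.sqrt (2 + Real.sqrt 2) ^ n ≤ (c n : ℝ) ∧
    (c n : ℝ) ≤ Real.sqrt (2 + Real.sqrt 2) ^ n * Real.exp (K * Real.log n ^ 3) := by
  have h := bounds (L := H982P.hexL) H982P.coord_hex c
    (fun n => by unfold c; rw [walks_eq]; rfl) _ rfl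
  rw [mu_eq] at h
  exact h

end Pool.Agent.Results.MP_b440f6_pr.HoneycombLogThree
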